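import Pool.Agent.RS.StmtsF

/-!
# LMB: `lam` vanishes on the fractions with denominator prime to `q`
-/

set_option autoImplicit false

namespace Pool.Agent.RS.H45

open MvPolynomial

theorem lmb (hres : ResStmt) (htxc : TxcStmt) : LmbStmt := by
  intro E _ j q a b α β ρ c hρ hρ0 hjρ hjq
  by_cases hb : b = 0
  · rw [hb, map_zero, div_zero, map_zero]
  have hatb : atX j (io E) b ≠ 0 := by
    intro h
    exact hb (atX_injective j (h.trans (map_zero _).symm))
  have hdeg : 0 < (atX j (io E) q).natDegree := by
    have h1 : (atX j (io E) q).natDegree = (toX j q).natDegree :=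
      Polynomial.natDegree_map_eq_of_injective io_injective (toX j q)
    rw [h1]
    exact (htxc E j q).2.2.2.1.2 hjq
  have hR := (hres (FF E) (atX j (io E) q) hdeg).1
  have hC : atX j (io E) ρ = Polynomial.C (io E ρ) := by
    have h1 : toX j ρ = Polynomial.C ρ := (htxc E j ρ).2.2.2.2 hjρ
    change (toX j ρ).map (io E) = _
    rw [h1, Polynomial.map_C]
  have hio : io E ρ ≠ 0 := by
    intro h
    exact hρ0 (io_injective (h.trans (map_zero _).symm))
  have hcop : IsCoprime (atX j (io E) b) (atX j (io E) q) := by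
    refine ⟨Polynomial.C (io E ρ)⁻¹ * atX j (io E) β, Polynomial.C (io E ρ)⁻¹ * atX j (io E) α, ?_⟩
    have h1 : atX j (io E) α * atX j (io E) q + atX j (io E) β * atX j (io E) b =
        Polynomial.C (io E ρ) := by
      rw [← hC, hρ, map_add, map_mul, map_mul]
    have h2 : Polynomial.C (io E ρ)⁻¹ * Polynomial.C (io E ρ) = 1 := by
      rw [← Polynomial.C_mul, inv_mul_cancel₀ hio, Polynomial.C_1]
    calc _ = Polynomial.C (io E ρ)⁻¹ * (atX j (io E) α * atX j (io E) q +
          atX j (io E) β * atX j (io E) b) := by ring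
      _ = 1 := by rw [h1, h2]
  have h := hR (Polynomial.X ^ c * atX j (io E) a) (atX j (io E) b) hatb hcop
  rw [lam_apply, map_div₀, up_io, up_io]
  rw [map_mul, mul_div_assoc] at h
  exact h

end Pool.Agent.RS.H45
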